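import Pool.Agent.R661.HY.Konig

set_option autoImplicit false

/-! Blow-ups of interval edge colourings give circular (p,1)-total labellings. -/

namespace Pool.Agent.R661.HY

open Finset

/-- a circular (p,1)-total labelling with the labels `0, …, N - 1` -/
def Circ {V : Type} (G : SimpleGraph V) (p N : ℕ) : Prop :=
  ∃ (fV : V → ℕ) (fE : Sym2 V → ℕ),
    (∀ v, fV v < N) ∧ (∀ e ∈ G.edgeSet, fE e < N) ∧
    (∀ u v, G.Adj u v → fV u ≠ fV v) ∧
    (∀ u v w, G.Adj u v → G.Adj u w → v ≠ w → fE s(u, v) ≠ fE s(u, w)) ∧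
    (∀ u v, G.Adj u v → (p : ℤ) ≤ |(fV u : ℤ) - (fE s(u, v) : ℤ)| ∧
      |(fV u : ℤ) - (fE s(u, v) : ℤ)| ≤ (N : ℤ) - p)

/-- distance of two labels on the circle -/
theorem dist_mod {N p a b r : ℕ} (h : (a + r) % N = b % N) (h1 : p ≤ r)
    (h2 : r + p ≤ N) (hN : 0 < N) (hp : 1 ≤ p) :
    (p : ℤ) ≤ |((a % N : ℕ) : ℤ) - ((b % N : ℕ) : ℤ)| ∧
      |((a % N : ℕ) : ℤ) - ((b % N : ℕ) : ℤ)| ≤ (N : ℤ) - p := by
  have ha : a % N < N := Nat.mod_lt _ hN
  have hb : b % N < N := Nat.mod_lt _ hN
  have e1 : (a % N + r) % N = b % N := by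
    rw [← h, Nat.mod_add_mod]
  generalize a % N = x at *
  generalize b % N = y at *
  rcases Nat.lt_or_ge (x + r) N with h3 | h3
  · rw [Nat.mod_eq_of_lt h3] at e1
    rw [abs_of_nonpos (by omega)]
    omega
  · have e2 : (x + r) % N = x + r - N := by
      rw [Nat.mod_eq_sub_mod h3, Nat.mod_eq_of_lt (by omega)]
    rw [e2] at e1
    rw [abs_of_nonneg (by omega)]
    omega

/-- equal remainders of numbers which are close to each other -/
theorem eq_of_mod {N x y : ℕ} (h : x % N = y % N) (h1 : x < y + N) (h2 : y < x + N) : x = y := by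
  rcases le_total x y with h3 | h3
  · have h4 : y ≡ x [MOD N] := h.symm
    have h5 := (Nat.modEq_iff_dvd' h3).1 h4.symm
    have h6 : y - x = 0 := Nat.eq_zero_of_dvd_of_lt h5 (by omega)
    omega
  · have h5 := (Nat.modEq_iff_dvd' h3).1 (show y ≡ x [MOD N] from h.symm)
    have h6 : x - y = 0 := Nat.eq_zero_of_dvd_of_lt h5 (by omega)
    omega

theorem blow {V : Type} [Fintype V] (G : SimpleGraph V) (t : V → ℕ) (R : ℕ → ℕ → Prop)
    (w p d N : ℕ) (hp : 1 ≤ p) (hN : N = d * w + 2 * p)
    (hne : ∀ x, ¬ R x x) (hR : ∀ u v, G.Adj u v → R (t u) (t v))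
    (hw : ∀ v y, {u | G.Adj v u ∧ t u = y}.ncard ≤ w)
    (col : ℕ → ℕ → ℕ) (hsym : ∀ x y, col x y = col y x) (s δ : ℕ → ℕ)
    (h1 : ∀ x y, R x y → s x ≤ col x y ∧ col x y < s x + d)
    (h2 : ∀ x y z, R x y → R x z → col x y = col x z → y = z)
    (hδ : ∀ x, δ x ≤ 1)
    (h3 : ∀ x y, R x y → (w * s x + δ x) % N ≠ (w * s y + δ y) % N) :
    Circ G p N := by
  classical
  have hN0 : 0 < N := by omega
  -- the edges, oriented from the smaller to the larger type
  let E : Type := {q : V × V // G.Adj q.1 q.2 ∧ t q.1 < t q.2}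
  have hfib : ∀ (v : V) (y : ℕ), ({u | G.Adj v u ∧ t u = y} : Set V).Finite :=
    fun v y => Set.toFinite _
  obtain ⟨M, hM⟩ : ∃ M, ∀ v, t v < M := by
    obtain ⟨M, hM⟩ := (Set.finite_range t).bddAbove
    exact ⟨M + 1, fun v => Nat.lt_succ_of_le (hM ⟨v, rfl⟩)⟩
  let sE : E → V × Fin M := fun e => (e.1.1, ⟨t e.1.2, hM _⟩)
  let tE : E → V × Fin M := fun e => (e.1.2, ⟨t e.1.1, hM _⟩)
  obtain ⟨c, hc1, hc2⟩ := koenig_le sE tE w (by
    rintro ⟨v, y⟩
    refine le_trans ?_ (hw v y)
    rw [← Nat.card_coe_set_eq]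
    refine Nat.card_le_card_of_injective
      (fun e : {e : E // sE e = (v, y)} => (⟨e.1.1.2, by
        have h := e.2
        simp only [sE, Prod.mk.injEq, Fin.ext_iff] at h
        have h4 := e.1.2.1
        rw [h.1] at h4
        exact ⟨h4, h.2⟩⟩ : {u | G.Adj v u ∧ t u = (y : ℕ)})) ?_
    intro e e' he
    have h := e.2
    have h' := e'.2
    simp only [sE, Prod.mk.injEq] at h h'
    have h5 : e.1.1.2 = e'.1.1.2 := congrArg Subtype.val he
    apply Subtype.ext
    apply Subtype.ext
    exact Prod.ext (h.1.trans h'.1.symm) h5) (by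
    rintro ⟨v, y⟩
    refine le_trans ?_ (hw v y)
    rw [← Nat.card_coe_set_eq]
    refine Nat.card_le_card_of_injective
      (fun e : {e : E // tE e = (v, y)} => (⟨e.1.1.1, by
        have h := e.2
        simp only [tE, Prod.mk.injEq, Fin.ext_iff] at h
        have h4 := e.1.2.1
        rw [h.1] at h4
        exact ⟨h4.symm, h.2⟩⟩ : {u | G.Adj v u ∧ t u = (y : ℕ)})) ?_
    intro e e' he
    have h := e.2
    have h' := e'.2
    simp only [tE, Prod.mk.injEq] at h h'
    have h5 : e.1.1.1 = e'.1.1.1 := congrArg Subtype.val he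
    apply Subtype.ext
    apply Subtype.ext
    exact Prod.ext h5 (h.1.trans h'.1.symm))
  -- the colours inside the blocks
  let cc : V → V → ℕ := fun u v =>
    if h : G.Adj u v ∧ t u < t v then (c ⟨(u, v), h⟩ : ℕ) else
      if h : G.Adj v u ∧ t v < t u then (c ⟨(v, u), h⟩ : ℕ) else 0
  have ccsym : ∀ u v, cc u v = cc v u := by
    intro u v
    by_cases h : G.Adj u v ∧ t u < t v
    · have h' : ¬ (G.Adj v u ∧ t v < t u) := fun h' => by omega
      simp only [cc, dif_pos h, dif_neg h']
    · by_cases h' : G.Adj v u ∧ t v < t u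
      · simp only [cc, dif_pos h', dif_neg h]
      · simp only [cc, dif_neg h, dif_neg h']
  have cclt : ∀ u v, G.Adj u v → cc u v < w := by
    intro u v huv
    have hne' : t u ≠ t v := fun h => hne (t v) (by
      have := hR u v huv
      rwa [h] at this)
    rcases Nat.lt_or_gt_of_ne hne' with h | h
    · have h' : G.Adj u v ∧ t u < t v := ⟨huv, h⟩
      simp only [cc, dif_pos h']
      exact (c _).2
    · have h' : G.Adj v u ∧ t v < t u := ⟨huv.symm, h⟩
      have h'' : ¬ (G.Adj u v ∧ t u < t v) := fun h' => by omega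
      simp only [cc, dif_neg h'', dif_pos h']
      exact (c _).2
  have ccprop : ∀ u v v', G.Adj u v → G.Adj u v' → t v = t v' → cc u v = cc u v' → v = v' := by
    intro u v v' huv huv' ht hcc
    have hne' : t u ≠ t v := fun h => hne (t v) (by
      have := hR u v huv
      rwa [h] at this)
    rcases Nat.lt_or_gt_of_ne hne' with h | h
    · have a1 : G.Adj u v ∧ t u < t v := ⟨huv, h⟩
      have a2 : G.Adj u v' ∧ t u < t v' := ⟨huv', by omega⟩
      simp only [cc, dif_pos a1, dif_pos a2] at hcc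
      have h4 := hc1 ⟨(u, v), a1⟩ ⟨(u, v'), a2⟩ (by simp [sE, ht]) (Fin.ext hcc)
      have h5 := congrArg (fun e : E => e.1.2) h4
      exact h5
    · have a1 : G.Adj v u ∧ t v < t u := ⟨huv.symm, h⟩
      have a2 : G.Adj v' u ∧ t v' < t u := ⟨huv'.symm, by omega⟩
      have b1 : ¬ (G.Adj u v ∧ t u < t v) := fun h' => by omega
      have b2 : ¬ (G.Adj u v' ∧ t u < t v') := fun h' => by omega
      simp only [cc, dif_neg b1, dif_neg b2, dif_pos a1, dif_pos a2] at hcc
      have h4 := hc2 ⟨(v, u), a1⟩ ⟨(v', u), a2⟩ (by simp [tE, ht]) (Fin.ext hcc)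
      have h5 := congrArg (fun e : E => e.1.1) h4
      exact h5
  -- the labels
  let fE : Sym2 V → ℕ := Sym2.lift ⟨fun u v => (w * col (t u) (t v) + cc u v) % N, by
    intro u v
    simp only
    rw [hsym, ccsym]⟩
  have hfE : ∀ u v, fE s(u, v) = (w * col (t u) (t v) + cc u v) % N := fun u v => rfl
  refine ⟨fun v => (w * s (t v) + δ (t v) + (N - p - 1)) % N, fE, fun v => Nat.mod_lt _ hN0, ?_,
    ?_, ?_, ?_⟩
  · intro e _
    induction e using Sym2.ind with
    | _ u v => rw [hfE]; exact Nat.mod_lt _ hN0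
  · intro u v huv h
    refine h3 (t u) (t v) (hR u v huv) ?_
    exact Nat.ModEq.add_right_cancel' (N - p - 1) h
  · intro u v v' huv huv' hvv' h
    rw [hfE, hfE] at h
    have a1 := h1 _ _ (hR u v huv)
    have a2 := h1 _ _ (hR u v' huv')
    have a3 := cclt u v huv
    have a4 := cclt u v' huv'
    have b1 : w * s (t u) ≤ w * col (t u) (t v) := Nat.mul_le_mul_left _ a1.1
    have b2 : w * s (t u) ≤ w * col (t u) (t v') := Nat.mul_le_mul_left _ a2.1
    have b3 : w * (col (t u) (t v) + 1) ≤ w * (s (t u) + d) := Nat.mul_le_mul_left _ a1.2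
    have b4 : w * (col (t u) (t v') + 1) ≤ w * (s (t u) + d) := Nat.mul_le_mul_left _ a2.2
    have b5 : w * (s (t u) + d) = w * s (t u) + d * w := by ring
    have b6 : w * (col (t u) (t v) + 1) = w * col (t u) (t v) + w := by ring
    have b7 : w * (col (t u) (t v') + 1) = w * col (t u) (t v') + w := by ring
    have h4 := eq_of_mod h (by omega) (by omega)
    -- the blocks agree
    have h5 : col (t u) (t v) = col (t u) (t v') := by
      rcases Nat.lt_trichotomy (col (t u) (t v)) (col (t u) (t v')) with h6 | h6 | h6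
      · have := Nat.mul_le_mul_left w h6
        have e : w * (col (t u) (t v)).succ = w * col (t u) (t v) + w := Nat.mul_succ _ _
        omega
      · exact h6
      · have := Nat.mul_le_mul_left w h6
        have e : w * (col (t u) (t v')).succ = w * col (t u) (t v') + w := Nat.mul_succ _ _
        omega
    have h6 := h2 _ _ _ (hR u v huv) (hR u v' huv') h5
    rw [h5] at h4
    exact hvv' (ccprop u v v' huv huv' h6 (by omega))
  · intro u v huv
    rw [hfE]
    have a1 := h1 _ _ (hR u v huv)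
    have a3 := cclt u v huv
    have a5 := hδ (t u)
    have b1 : w * s (t u) ≤ w * col (t u) (t v) := Nat.mul_le_mul_left _ a1.1
    have b3 : w * (col (t u) (t v) + 1) ≤ w * (s (t u) + d) := Nat.mul_le_mul_left _ a1.2
    have b5 : w * (s (t u) + d) = w * s (t u) + d * w := by ring
    have b6 : w * (col (t u) (t v) + 1) = w * col (t u) (t v) + w := by ring
    refine dist_mod (r := w * col (t u) (t v) + cc u v - w * s (t u) + p + 1 - δ (t u))
      ?_ (by omega) (by omega) hN0 hp
    have e1 : w * s (t u) + δ (t u) + (N - p - 1) +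
        (w * col (t u) (t v) + cc u v - w * s (t u) + p + 1 - δ (t u)) =
        w * col (t u) (t v) + cc u v + N := by omega
    rw [e1, Nat.add_mod_right]

end Pool.Agent.R661.HY
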