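import Pool.Agent.R661.HY.Order

set_option autoImplicit false

/-! Types with a regular bipartite graph of forbidden pairs. -/

namespace Pool.Agent.R661.HY

open Finset

/-- a relation with all row and column counts equal to `k ≥ 1` contains a permutation -/
theorem perm_of_regular {T : Type} [Fintype T] (R : T → T → Prop) (k : ℕ) (hk : 1 ≤ k)
    (h1 : ∀ x, {y | R x y}.ncard = k) (h2 : ∀ y, {x | R x y}.ncard = k) :
    ∃ σ : Equiv.Perm T, ∀ x, R x (σ x) := by
  classical
  have hrow : ∀ x, (univ.filter fun y => R x y).card = k := by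
    intro x
    rw [← h1 x, ← Set.ncard_coe_finset]
    congr 1
    ext y
    simp
  have hcol : ∀ y, (univ.filter fun x => R x y).card = k := by
    intro y
    rw [← h2 y, ← Set.ncard_coe_finset]
    congr 1
    ext x
    simp
  have hall : ∀ s : Finset T, s.card ≤ (s.biUnion fun x => univ.filter fun y => R x y).card := by
    intro s
    set N := s.biUnion fun x => univ.filter fun y => R x y with hN
    have e1 : s.card * k = ∑ x ∈ s, ∑ y ∈ N, (if R x y then 1 else 0) := by
      rw [← smul_eq_mul, ← Finset.sum_const]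
      refine Finset.sum_congr rfl fun x hx => ?_
      rw [← hrow x, Finset.card_filter]
      symm
      refine Finset.sum_subset (Finset.subset_univ _) fun y _ hy => ?_
      refine if_neg fun hR => hy ?_
      rw [hN, Finset.mem_biUnion]
      exact ⟨x, hx, by simpa using hR⟩
    have e2 : ∑ x ∈ s, ∑ y ∈ N, (if R x y then 1 else 0) ≤ N.card * k := by
      rw [Finset.sum_comm, ← smul_eq_mul, ← Finset.sum_const]
      refine Finset.sum_le_sum fun y _ => ?_
      rw [← hcol y, Finset.card_filter]
      exact Finset.sum_le_sum_of_subset (Finset.subset_univ _)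
    rw [← e1] at e2
    exact Nat.le_of_mul_le_mul_right e2 hk
  obtain ⟨f, hf, hft⟩ := (Finset.all_card_le_biUnion_card_iff_exists_injective _).1 hall
  refine ⟨Equiv.ofBijective f (Finite.injective_iff_bijective.1 hf), fun x => ?_⟩
  have := hft x
  simpa using this

/-- the numbered form -/
theorem core {V T : Type} [Fintype V] [Fintype T] (G : SimpleGraph V) (F : SimpleGraph T)
    (b : T → Bool) (m w k p : ℕ) (t : V → T) (u v : Fin m → T) (hp : 1 ≤ p) (hw1 : 1 ≤ w)
    (hu : Function.Injective u) (hv : Function.Injective v) (hub : ∀ i, b (u i) = true)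
    (hvb : ∀ i, b (v i) = false) (hT : Fintype.card T = 2 * m)
    (hF : ∀ x, {y | F.Adj x y}.ncard = k) (hb : ∀ x y, F.Adj x y → b x ≠ b y)
    (huv : ∀ i, ¬ F.Adj (u i) (v i))
    (hcond : 2 ≤ w ∨ ∀ i j : Fin m, (j : ℕ) = i + 1 → F.Adj (u i) (v j))
    (hG : ∀ x y, G.Adj x y → t x ≠ t y ∧ ¬ F.Adj (t x) (t y))
    (hw : ∀ x y, {z | G.Adj x z ∧ t z = y}.ncard ≤ w) :
    Circ G p ((2 * m - 1 - k) * w + 2 * p) := by
  classical
  have hinj : Function.Injective (Sum.elim u v) := by
    rintro (i | i) (j | j) h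
    · simp only [Sum.elim_inl] at h
      rw [hu h]
    · simp only [Sum.elim_inl, Sum.elim_inr] at h
      have := hub i
      rw [h, hvb j] at this
      exact absurd this (by simp)
    · simp only [Sum.elim_inl, Sum.elim_inr] at h
      have := hub j
      rw [← h, hvb i] at this
      exact absurd this (by simp)
    · simp only [Sum.elim_inr] at h
      rw [hv h]
  have hbij : Function.Bijective (Sum.elim u v) := by
    rw [Fintype.bijective_iff_injective_and_card]
    refine ⟨hinj, ?_⟩
    rw [Fintype.card_sum, Fintype.card_fin, hT]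
    omega
  let e : Fin m ⊕ Fin m ≃ T := Equiv.ofBijective _ hbij
  have heu : ∀ i, e (Sum.inl i) = u i := fun i => rfl
  have hev : ∀ i, e (Sum.inr i) = v i := fun i => rfl
  let num : T → ℕ := fun x => Sum.elim (fun i : Fin m => 2 * (i : ℕ))
    (fun j : Fin m => 2 * (j : ℕ) + 1) (e.symm x)
  have hnu : ∀ i, num (u i) = 2 * (i : ℕ) := by
    intro i
    simp only [num]
    rw [← heu, Equiv.symm_apply_apply, Sum.elim_inl]
  have hnv : ∀ i, num (v i) = 2 * (i : ℕ) + 1 := by
    intro i
    simp only [num]
    rw [← hev, Equiv.symm_apply_apply, Sum.elim_inr]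
  have hcases : ∀ x, (∃ i, x = u i) ∨ ∃ i, x = v i := by
    intro x
    obtain ⟨y, rfl⟩ := e.surjective x
    rcases y with i | i
    · exact Or.inl ⟨i, heu i⟩
    · exact Or.inr ⟨i, hev i⟩
  have hninj : Function.Injective num := by
    intro x y h
    rcases hcases x with ⟨i, rfl⟩ | ⟨i, rfl⟩ <;> rcases hcases y with ⟨j, rfl⟩ | ⟨j, rfl⟩
    · rw [hnu, hnu] at h
      have : i = j := Fin.ext (by omega)
      rw [this]
    · rw [hnu, hnv] at h
      omega
    · rw [hnu, hnv] at h
      omega
    · rw [hnv, hnv] at h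
      have : i = j := Fin.ext (by omega)
      rw [this]
  have hnlt : ∀ x, num x < 2 * m := by
    intro x
    rcases hcases x with ⟨i, rfl⟩ | ⟨i, rfl⟩
    · rw [hnu]
      have := i.2
      omega
    · rw [hnv]
      have := i.2
      omega
  -- neighbours of the `u i` are the `v j`, `j ≠ i`
  have hFu : ∀ (i : Fin m) y, F.Adj (u i) y → ∃ j, y = v j ∧ j ≠ i := by
    intro i y h
    rcases hcases y with ⟨j, rfl⟩ | ⟨j, rfl⟩
    · exact absurd ((hub i).trans (hub j).symm) (hb _ _ h)
    · refine ⟨j, rfl, ?_⟩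
      rintro rfl
      exact huv j h
  have hFv : ∀ (i : Fin m) y, F.Adj (v i) y → ∃ j, y = u j ∧ j ≠ i := by
    intro i y h
    rcases hcases y with ⟨j, rfl⟩ | ⟨j, rfl⟩
    · refine ⟨j, rfl, ?_⟩
      rintro rfl
      exact huv j h.symm
    · exact absurd ((hvb i).trans (hvb j).symm) (hb _ _ h)
  let A : ℕ → ℕ → Prop := fun i j => ∃ (hi : i < m) (hj : j < m), ¬ F.Adj (u ⟨i, hi⟩) (v ⟨j, hj⟩)
  refine types G m w p k A (fun x => num (t x)) hp hw1 ?_ ?_ ?_ ?_ ?_
  · intro i hi
    rw [← hF (u ⟨i, hi⟩)]
    refine Set.ncard_le_ncard_of_injOn (fun y => num y / 2) ?_ ?_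
      ((Set.finite_Iio m).subset fun j hj => hj.1)
    · intro y hy
      obtain ⟨j, rfl, hji⟩ := hFu ⟨i, hi⟩ y hy
      have e1 : num (v j) / 2 = j := by
        rw [hnv]
        omega
      simp only [Set.mem_setOf_eq, e1]
      refine ⟨j.2, fun h => hji (Fin.ext h), ?_⟩
      rintro ⟨_, hj, h⟩
      exact h hy
    · intro y hy y' hy' h
      obtain ⟨j, rfl, _⟩ := hFu ⟨i, hi⟩ y hy
      obtain ⟨j', rfl, _⟩ := hFu ⟨i, hi⟩ y' hy'
      simp only [hnv] at h
      have : j = j' := Fin.ext (by omega)
      rw [this]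
  · intro j hj
    rw [← hF (v ⟨j, hj⟩)]
    refine Set.ncard_le_ncard_of_injOn (fun y => num y / 2) ?_ ?_
      ((Set.finite_Iio m).subset fun i hi => hi.1)
    · intro y hy
      obtain ⟨i, rfl, hij⟩ := hFv ⟨j, hj⟩ y hy
      have e1 : num (u i) / 2 = i := by
        rw [hnu]
        omega
      simp only [Set.mem_setOf_eq, e1]
      refine ⟨i.2, fun h => hij (Fin.ext h), ?_⟩
      rintro ⟨hi, _, h⟩
      exact h (SimpleGraph.Adj.symm hy)
    · intro y hy y' hy' h
      obtain ⟨i, rfl, _⟩ := hFv ⟨j, hj⟩ y hy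
      obtain ⟨i', rfl, _⟩ := hFv ⟨j, hj⟩ y' hy'
      simp only [hnu] at h
      have : i = i' := Fin.ext (by omega)
      rw [this]
  · rcases hcond with h | h
    · exact Or.inl h
    · refine Or.inr fun i hi => ?_
      rintro ⟨h1, h2, h3⟩
      exact h3 (h ⟨i, h1⟩ ⟨i + 1, h2⟩ rfl)
  · intro x y hxy
    obtain ⟨h1, h2⟩ := hG x y hxy
    refine ⟨hnlt _, hnlt _, fun h => h1 (hninj h), ?_, ?_⟩
    · intro hx hy
      rcases hcases (t x) with ⟨i, hi⟩ | ⟨i, hi⟩
      · rcases hcases (t y) with ⟨j, hj⟩ | ⟨j, hj⟩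
        · simp only [hj, hnu] at hy
          omega
        · simp only [hi, hj, hnu, hnv]
          have e1 : 2 * (i : ℕ) / 2 = i := by omega
          have e2 : (2 * (j : ℕ) + 1) / 2 = j := by omega
          rw [e1, e2]
          refine ⟨i.2, j.2, ?_⟩
          rw [hi, hj] at h2
          exact h2
      · simp only [hi, hnv] at hx
        omega
    · intro hx hy
      rcases hcases (t y) with ⟨i, hi⟩ | ⟨i, hi⟩
      · rcases hcases (t x) with ⟨j, hj⟩ | ⟨j, hj⟩
        · simp only [hj, hnu] at hx
          omega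
        · simp only [hi, hj, hnu, hnv]
          have e1 : 2 * (i : ℕ) / 2 = i := by omega
          have e2 : (2 * (j : ℕ) + 1) / 2 = j := by omega
          rw [e1, e2]
          refine ⟨i.2, j.2, ?_⟩
          rw [hi, hj] at h2
          exact fun h => h2 h.symm
      · simp only [hi, hnv] at hy
        omega
  · intro x y
    by_cases hy : ∃ z, num z = y
    · obtain ⟨z, rfl⟩ := hy
      refine le_trans (Set.ncard_le_ncard ?_ (Set.toFinite _)) (hw x z)
      rintro c ⟨h1, h2⟩
      exact ⟨h1, hninj h2⟩
    · have : {c | G.Adj x c ∧ num (t c) = y} = ∅ := by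
        rw [Set.eq_empty_iff_forall_notMem]
        rintro c ⟨_, h⟩
        exact hy ⟨_, h⟩
      rw [this, Set.ncard_empty]
      exact Nat.zero_le _

/-- the sides of a regular bipartite graph have equal sizes -/
theorem sides {T : Type} [Fintype T] (F : SimpleGraph T) (b : T → Bool) (m : ℕ)
    (hT : Fintype.card T = 2 * m) (σ : Equiv.Perm T) (hσ : ∀ x, F.Adj x (σ x))
    (hb : ∀ x y, F.Adj x y → b x ≠ b y) (c : Bool) : {x | b x = c}.ncard = m := by
  classical
  have h1 : ∀ c, {x | b x = c}.ncard ≤ {x | b x = !c}.ncard := by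
    intro c
    refine Set.ncard_le_ncard_of_injOn σ ?_ σ.injective.injOn (Set.toFinite _)
    intro x hx
    have h2 := hb x (σ x) (hσ x)
    simp only [Set.mem_setOf_eq] at hx ⊢
    rw [hx] at h2
    cases hc : b (σ x) <;> cases c <;> simp_all
  have h2 : ({x | b x = c} : Set T)ᶜ = {x | b x = !c} := by
    ext x
    simp only [Set.mem_compl_iff, Set.mem_setOf_eq]
    cases b x <;> cases c <;> simp
  have h3 := Set.ncard_add_ncard_compl {x | b x = c}
  rw [h2, Nat.card_eq_fintype_card, hT] at h3
  have h4 := h1 c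
  have h5 := h1 (!c)
  rw [Bool.not_not] at h5
  omega

theorem regular {V T : Type} [Fintype V] [Fintype T] (G : SimpleGraph V) (F : SimpleGraph T)
    (b : T → Bool) (m w k p : ℕ) (t : V → T) (hp : 1 ≤ p) (hw1 : 1 ≤ w) (hk : 1 ≤ k)
    (hkm : k < m) (hT : Fintype.card T = 2 * m)
    (hF : ∀ x, {y | F.Adj x y}.ncard = k) (hb : ∀ x y, F.Adj x y → b x ≠ b y)
    (hcond : 2 ≤ w ∨ 4 * k ≤ m)
    (hG : ∀ x y, G.Adj x y → t x ≠ t y ∧ ¬ F.Adj (t x) (t y))
    (hw : ∀ x y, {z | G.Adj x z ∧ t z = y}.ncard ≤ w) :
    Circ G p ((2 * m - 1 - k) * w + 2 * p) := by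
  classical
  obtain ⟨σ, hσ⟩ := perm_of_regular (fun x y => F.Adj x y) k hk hF (by
    intro y
    rw [← hF y]
    congr 1
    ext x
    exact F.adj_comm x y)
  have hside := sides F b m hT σ hσ hb
  have hX : Fintype.card {x // b x = true} = m := by
    rw [← hside true, ← Nat.card_eq_fintype_card, ← Nat.card_coe_set_eq]
    rfl
  have hm : 0 < m := by omega
  haveI : NeZero m := ⟨by omega⟩
  have hbσ : ∀ x, b x = true → b (σ x) = false := by
    intro x hx
    have h2 := hb x (σ x) (hσ x)
    rw [hx] at h2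
    cases hc : b (σ x) <;> simp_all
  rcases Nat.lt_or_ge 1 w with hw2 | hw2
  · -- `w ≥ 2`
    obtain ⟨τ, hτ⟩ := perm_of_regular (fun x y => b x ≠ b y ∧ ¬ F.Adj x y) (m - k) (by omega)
      (by
        intro x
        have e1 : {y | b x ≠ b y ∧ ¬ F.Adj x y} = {y | b y = !(b x)} \ {y | F.Adj x y} := by
          ext y
          simp only [Set.mem_setOf_eq, Set.mem_diff]
          refine and_congr_left fun _ => ?_
          cases b x <;> cases b y <;> simp
        rw [e1, Set.ncard_diff _ (Set.toFinite _), hside, hF]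
        intro y hy
        have := hb x y hy
        simp only [Set.mem_setOf_eq]
        cases hx : b x <;> cases hy : b y <;> simp_all)
      (by
        intro x
        have e1 : {y | b y ≠ b x ∧ ¬ F.Adj y x} = {y | b y = !(b x)} \ {y | F.Adj x y} := by
          ext y
          simp only [Set.mem_setOf_eq, Set.mem_diff, F.adj_comm y x]
          refine and_congr_left fun _ => ?_
          cases b x <;> cases b y <;> simp
        rw [e1, Set.ncard_diff _ (Set.toFinite _), hside, hF]
        intro y hy
        have := hb x y hy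
        simp only [Set.mem_setOf_eq]
        cases hx : b x <;> cases hy : b y <;> simp_all)
    let e : Fin m ≃ {x // b x = true} := Fintype.equivOfCardEq (by rw [Fintype.card_fin, hX])
    refine core G F b m w k p t (fun i => (e i : T)) (fun i => τ (e i)) hp hw1 ?_ ?_ ?_ ?_ hT hF hb
      ?_ (Or.inl hw2) hG hw
    · intro i j h
      exact e.injective (Subtype.ext h)
    · intro i j h
      exact e.injective (Subtype.ext (τ.injective h))
    · intro i
      exact (e i).2
    · intro i
      have h1 := (hτ (e i)).1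
      rw [(e i).2] at h1
      cases hc : b (τ (e i)) <;> simp_all
    · intro i
      exact (hτ (e i)).2
  · -- `w = 1`
    have h4 : 4 * k ≤ m := by omega
    obtain ⟨π, hπ⟩ := exists_order (X := {x // b x = true}) m (k - 1) hX
      (fun x y => F.Adj (y : T) (σ x)) (by
        intro x
        have h1 : (σ (x : T)) ∈ (Set.univ : Set T) := trivial
        have h2 : ({y : T | F.Adj (σ x) y} \ {(x : T)}).ncard = k - 1 := by
          rw [Set.ncard_diff_singleton_of_mem (show (x : T) ∈ {y : T | F.Adj (σ x) y} from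
            (hσ x).symm), hF]
        rw [← h2]
        refine Set.ncard_le_ncard_of_injOn (fun y : {x // b x = true} => (y : T)) ?_
          Subtype.val_injective.injOn (Set.toFinite _)
        rintro y ⟨h3, h4⟩
        exact ⟨h4.symm, fun h => h3 (Subtype.ext h)⟩) (by
        intro y
        have h2 : ({z : T | F.Adj y z} \ {σ (y : T)}).ncard = k - 1 := by
          rw [Set.ncard_diff_singleton_of_mem (show σ (y : T) ∈ {z : T | F.Adj y z} from
            hσ y), hF]
        rw [← h2]
        refine Set.ncard_le_ncard_of_injOn (fun x : {x // b x = true} => σ (x : T)) ?_ ?_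
          (Set.toFinite _)
        · rintro x ⟨h3, h4⟩
          exact ⟨h4, fun h => h3 (Subtype.ext (σ.injective h))⟩
        · intro x _ x' _ h
          exact Subtype.ext (σ.injective h)) (by omega)
    refine core G F b m w k p t (fun i => (π ((i : ℕ) : ZMod m) : T))
      (fun i => σ (π (((i : ℕ) : ZMod m) - 1))) hp hw1 ?_ ?_ ?_ ?_ hT hF hb ?_ (Or.inr ?_) hG hw
    · intro i j h
      have h1 := π.injective (Subtype.ext h)
      rw [ZMod.natCast_eq_natCast_iff'] at h1
      rw [Nat.mod_eq_of_lt i.2, Nat.mod_eq_of_lt j.2] at h1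
      exact Fin.ext h1
    · intro i j h
      have h1 := π.injective (Subtype.ext (σ.injective h))
      have h2 : ((i : ℕ) : ZMod m) = ((j : ℕ) : ZMod m) := by
        have := congrArg (fun z => z + 1) h1
        simpa using this
      rw [ZMod.natCast_eq_natCast_iff'] at h2
      rw [Nat.mod_eq_of_lt i.2, Nat.mod_eq_of_lt j.2] at h2
      exact Fin.ext h2
    · intro i
      exact (π _).2
    · intro i
      exact hbσ _ (π _).2
    · intro i h
      have h1 := hπ (((i : ℕ) : ZMod m) - 1)
      rw [sub_add_cancel] at h1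
      exact h1 h
    · intro i j hij
      have h1 : ((j : ℕ) : ZMod m) - 1 = ((i : ℕ) : ZMod m) := by
        rw [hij]
        push_cast
        ring
      rw [h1]
      exact hσ _

/-- the case without forbidden pairs -/
theorem noforb {V T : Type} [Fintype V] [Fintype T] (G : SimpleGraph V) (m w p : ℕ) (t : V → T)
    (hp : 1 ≤ p) (hw1 : 1 ≤ w) (hm : 0 < m) (hT : Fintype.card T = 2 * m)
    (hG : ∀ x y, G.Adj x y → t x ≠ t y)
    (hw : ∀ x y, {z | G.Adj x z ∧ t z = y}.ncard ≤ w) :
    Circ G p ((2 * m - 1 - 0) * w + 2 * p) := by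
  classical
  rcases Nat.lt_or_ge 1 w with hw2 | hw2
  · let e : Fin m ⊕ Fin m ≃ T := Fintype.equivOfCardEq (by
      rw [Fintype.card_sum, Fintype.card_fin, hT]
      omega)
    refine core G ⊥ (fun x => (e.symm x).isLeft) m w 0 p t (fun i => e (Sum.inl i))
      (fun i => e (Sum.inr i)) hp hw1 ?_ ?_ ?_ ?_ hT ?_ ?_ ?_ (Or.inl hw2) ?_ hw
    · intro i j h
      exact Sum.inl_injective (e.injective h)
    · intro i j h
      exact Sum.inr_injective (e.injective h)
    · intro i
      simp
    · intro i
      simp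
    · intro x
      simp
    · intro x y h
      exact absurd h (by simp)
    · intro i h
      exact absurd h (by simp)
    · intro x y h
      exact ⟨hG x y h, by simp⟩
  · let e : T ≃ Fin (2 * m) := Fintype.equivOfCardEq (by rw [Fintype.card_fin, hT])
    have h1 := single G (2 * m) p (fun x => ((e (t x) : Fin (2 * m)) : ℕ)) hp (by omega)
      (fun x => (e (t x)).2) (fun x y h h' => hG x y h (e.injective (Fin.ext h'))) (by
        intro x y y' h h' h2
        have h3 : t y = t y' := e.injective (Fin.ext h2)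
        by_contra hne
        have h4 : ({y, y'} : Set V) ⊆ {z | G.Adj x z ∧ t z = t y} := by
          intro z hz
          rcases hz with rfl | hz
          · exact ⟨h, rfl⟩
          · rw [Set.mem_singleton_iff] at hz
            subst hz
            exact ⟨h', h3.symm⟩
        have h5 := Set.ncard_le_ncard h4 (Set.toFinite _)
        rw [Set.ncard_pair hne] at h5
        have h6 := hw x (t y)
        omega)
    have e2 : (2 * m - 1 - 0) * w + 2 * p = 2 * m - 1 + 2 * p := by
      have : w = 1 := by omega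
      subst this
      omega
    rw [e2]
    exact h1

end Pool.Agent.R661.HY
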