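import Mathlib

set_option autoImplicit false

/-! König's edge colouring theorem (adapted from Pool.Agent.H301R2.HR.T_DW). -/

open Finset

namespace Pool.Agent.R661.HY

theorem koenig_aux {E A B : Type} [Fintype A] [Fintype B] [DecidableEq E] [DecidableEq A]
    [DecidableEq B] (src : E → A) (tgt : E → B) (hAB : Fintype.card A = Fintype.card B) :
    ∀ (k : ℕ) (F : Finset E), (∀ a, (F.filter (fun e => src e = a)).card = k) →
      (∀ b, (F.filter (fun e => tgt e = b)).card = k) →
      ∃ c : E → ℕ, (∀ e ∈ F, c e < k) ∧
        (∀ e ∈ F, ∀ e' ∈ F, src e = src e' → c e = c e' → e = e') ∧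
        (∀ e ∈ F, ∀ e' ∈ F, tgt e = tgt e' → c e = c e' → e = e') := by
  intro k
  induction k with
  | zero =>
    intro F h1 _
    have hF : ∀ e ∈ F, False := by
      intro e he
      have := h1 (src e)
      rw [Finset.card_eq_zero] at this
      have h2 : e ∈ F.filter (fun e' => src e' = src e) := by
        rw [Finset.mem_filter]; exact ⟨he, rfl⟩
      rw [this] at h2
      simp at h2
    exact ⟨fun _ => 0, fun e he => (hF e he).elim, fun e he => (hF e he).elim,
      fun e he => (hF e he).elim⟩
  | succ k ih =>
    intro F h1 h2
    -- Hall's condition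
    let N : A → Finset B := fun a => (F.filter (fun e => src e = a)).image tgt
    have hall : ∀ S : Finset A, S.card ≤ (S.biUnion N).card := by
      intro S
      have c1 : (F.filter (fun e => src e ∈ S)).card = S.card * (k + 1) := by
        rw [Finset.card_eq_sum_card_fiberwise (f := src) (t := S)]
        · rw [Finset.sum_congr rfl (g := fun _ => k + 1)]
          · simp
          · intro a ha
            rw [← h1 a]
            congr 1
            ext e
            simp only [Finset.mem_filter]
            constructor
            · rintro ⟨⟨h3, -⟩, h4⟩; exact ⟨h3, h4⟩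
            · rintro ⟨h3, h4⟩; exact ⟨⟨h3, by rw [h4]; exact ha⟩, h4⟩
        · intro e he
          rw [Finset.mem_coe, Finset.mem_filter] at he
          exact he.2
      have c2 : (F.filter (fun e => tgt e ∈ S.biUnion N)).card = (S.biUnion N).card * (k + 1) := by
        rw [Finset.card_eq_sum_card_fiberwise (f := tgt) (t := S.biUnion N)]
        · rw [Finset.sum_congr rfl (g := fun _ => k + 1)]
          · simp
          · intro b hb
            rw [← h2 b]
            congr 1
            ext e
            simp only [Finset.mem_filter]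
            constructor
            · rintro ⟨⟨h3, -⟩, h4⟩; exact ⟨h3, h4⟩
            · rintro ⟨h3, h4⟩; exact ⟨⟨h3, by rw [h4]; exact hb⟩, h4⟩
        · intro e he
          rw [Finset.mem_coe, Finset.mem_filter] at he
          exact he.2
      have c3 : F.filter (fun e => src e ∈ S) ⊆ F.filter (fun e => tgt e ∈ S.biUnion N) := by
        intro e he
        rw [Finset.mem_filter] at he ⊢
        refine ⟨he.1, ?_⟩
        rw [Finset.mem_biUnion]
        exact ⟨src e, he.2, Finset.mem_image.mpr ⟨e, by rw [Finset.mem_filter]; exact ⟨he.1, rfl⟩,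
          rfl⟩⟩
      have c4 := Finset.card_le_card c3
      rw [c1, c2] at c4
      exact Nat.le_of_mul_le_mul_right c4 (by omega)
    obtain ⟨m, hm1, hm2⟩ := (Finset.all_card_le_biUnion_card_iff_exists_injective N).mp hall
    have hex : ∀ a, ∃ e ∈ F, src e = a ∧ tgt e = m a := by
      intro a
      have := hm2 a
      simp only [N, Finset.mem_image, Finset.mem_filter] at this
      obtain ⟨e, ⟨he1, he2⟩, he3⟩ := this
      exact ⟨e, he1, he2, he3⟩
    choose M hM1 hM2 hM3 using hex
    have hmbij : Function.Bijective m := by
      rw [Fintype.bijective_iff_injective_and_card]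
      exact ⟨hm1, hAB⟩
    have hMinj : Function.Injective M := by
      intro a a' h
      rw [← hM2 a, ← hM2 a', h]
    let F' : Finset E := F.filter (fun e => e ≠ M (src e))
    have hF'mem : ∀ e, e ∈ F' ↔ e ∈ F ∧ e ≠ M (src e) := by
      intro e; simp only [F', Finset.mem_filter]
    have g1 : ∀ a, (F'.filter (fun e => src e = a)).card = k := by
      intro a
      have h3 : F'.filter (fun e => src e = a) = (F.filter (fun e => src e = a)).erase (M a) := by
        ext e
        simp only [Finset.mem_filter, Finset.mem_erase, hF'mem]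
        constructor
        · rintro ⟨⟨h4, h5⟩, h6⟩
          rw [h6] at h5
          exact ⟨h5, h4, h6⟩
        · rintro ⟨h5, h4, h6⟩
          refine ⟨⟨h4, ?_⟩, h6⟩
          rw [h6]; exact h5
      rw [h3, Finset.card_erase_of_mem, h1 a]
      · rfl
      · rw [Finset.mem_filter]; exact ⟨hM1 a, hM2 a⟩
    have g2 : ∀ b, (F'.filter (fun e => tgt e = b)).card = k := by
      intro b
      obtain ⟨a, ha⟩ := hmbij.2 b
      have h3 : F'.filter (fun e => tgt e = b) = (F.filter (fun e => tgt e = b)).erase (M a) := by
        ext e
        simp only [Finset.mem_filter, Finset.mem_erase, hF'mem]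
        constructor
        · rintro ⟨⟨h4, h5⟩, h6⟩
          refine ⟨?_, h4, h6⟩
          rintro rfl
          exact h5 (by rw [hM2])
        · rintro ⟨h5, h4, h6⟩
          refine ⟨⟨h4, ?_⟩, h6⟩
          intro h7
          have h8 : tgt e = m (src e) := by rw [h7, hM3, hM2]
          rw [h6, ← ha] at h8
          have h9 := hm1 h8
          exact h5 (by rw [h9]; exact h7)
      rw [h3, Finset.card_erase_of_mem, h2 b]
      · rfl
      · rw [Finset.mem_filter]; exact ⟨hM1 a, by rw [hM3, ha]⟩
    obtain ⟨c, hc1, hc2, hc3⟩ := ih F' g1 g2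
    refine ⟨fun e => if e = M (src e) then k else c e, ?_, ?_, ?_⟩
    · intro e he
      simp only
      split_ifs with h3
      · omega
      · have := hc1 e ((hF'mem e).mpr ⟨he, h3⟩)
        omega
    · intro e he e' he' hs hc
      simp only at hc
      split_ifs at hc with h3 h4 h4
      · rw [h3, h4, hs]
      · have := hc1 e' ((hF'mem e').mpr ⟨he', h4⟩); omega
      · have := hc1 e ((hF'mem e).mpr ⟨he, h3⟩); omega
      · exact hc2 e ((hF'mem e).mpr ⟨he, h3⟩) e' ((hF'mem e').mpr ⟨he', h4⟩) hs hc
    · intro e he e' he' hs hc
      simp only at hc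
      split_ifs at hc with h3 h4 h4
      · have h5 : tgt e = m (src e) := by rw [h3, hM3, hM2]
        have h6 : tgt e' = m (src e') := by rw [h4, hM3, hM2]
        rw [h5, h6] at hs
        rw [h3, h4, hm1 hs]
      · have := hc1 e' ((hF'mem e').mpr ⟨he', h4⟩); omega
      · have := hc1 e ((hF'mem e).mpr ⟨he, h3⟩); omega
      · exact hc3 e ((hF'mem e).mpr ⟨he, h3⟩) e' ((hF'mem e').mpr ⟨he', h4⟩) hs hc


theorem fcongr {α : Type} [Fintype α] {P Q : α → Prop} [DecidablePred P] [DecidablePred Q]
    (h : ∀ x, P x ↔ Q x) : (Finset.univ.filter P).card = (Finset.univ.filter Q).card := by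
  congr 1
  ext x
  simp [h x]

theorem fzero {α : Type} [Fintype α] {P : α → Prop} [DecidablePred P]
    (h : ∀ x, ¬ P x) : (Finset.univ.filter P).card = 0 := by
  rw [Finset.card_eq_zero]
  ext x
  simp [h x]

/-- a bipartite multigraph of maximum degree `≤ m` has a proper edge colouring with `m` colours -/
theorem koenig_le {E A B : Type} [Fintype E] [Fintype A] [Fintype B] (s : E → A) (t : E → B)
    (m : ℕ) (hs : ∀ a, Nat.card {e // s e = a} ≤ m) (ht : ∀ b, Nat.card {e // t e = b} ≤ m) :
    ∃ c : E → Fin m, (∀ e e', s e = s e' → c e = c e' → e = e') ∧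
      (∀ e e', t e = t e' → c e = c e' → e = e') := by
  classical
  -- the deficiency
  let df : A ⊕ B → ℕ := Sum.elim (fun a => m - Nat.card {e // s e = a})
    (fun b => m - Nat.card {e // t e = b})
  let E' : Type := E ⊕ E ⊕ (Σ v : A ⊕ B, Fin (df v))
  let src : E' → A ⊕ B := Sum.elim (fun e => Sum.inl (s e))
    (Sum.elim (fun e => Sum.inr (t e)) (fun p => p.1))
  let tgt : E' → A ⊕ B := Sum.elim (fun e => Sum.inr (t e))
    (Sum.elim (fun e => Sum.inl (s e)) (fun p => p.1))
  have hsig : ∀ v : A ⊕ B, (Finset.univ.filter fun p : (Σ v : A ⊕ B, Fin (df v)) => p.1 = v).card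
      = df v := by
    intro v
    have : (Finset.univ.filter fun p : (Σ v : A ⊕ B, Fin (df v)) => p.1 = v) =
        Finset.univ.map ⟨fun i : Fin (df v) => (⟨v, i⟩ : Σ v : A ⊕ B, Fin (df v)), by
          intro i j h
          simpa using h⟩ := by
      ext p
      simp only [Finset.mem_filter, Finset.mem_univ, true_and, Finset.mem_map,
        Function.Embedding.coeFn_mk]
      constructor
      · rintro rfl
        exact ⟨p.2, rfl⟩
      · rintro ⟨i, rfl⟩
        rfl
    rw [this, Finset.card_map, Finset.card_univ, Fintype.card_fin]
  have hcs : ∀ a, (Finset.univ.filter fun e : E => s e = a).card = Nat.card {e // s e = a} := by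
    intro a
    rw [Nat.card_eq_fintype_card, Fintype.card_subtype]
  have hct : ∀ b, (Finset.univ.filter fun e : E => t e = b).card = Nat.card {e // t e = b} := by
    intro b
    rw [Nat.card_eq_fintype_card, Fintype.card_subtype]
  have hsum : ∀ P : E' → Prop, ∀ [DecidablePred P],
      ((Finset.univ : Finset E').filter P).card =
      (Finset.univ.filter fun e : E => P (Sum.inl e)).card +
      ((Finset.univ.filter fun e : E => P (Sum.inr (Sum.inl e))).card +
      (Finset.univ.filter fun p : (Σ v : A ⊕ B, Fin (df v)) => P (Sum.inr (Sum.inr p))).card) := by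
    intro P _
    simp only [Finset.card_filter]
    rw [Fintype.sum_sum_type, Fintype.sum_sum_type]
  have h1 : ∀ v, ((Finset.univ : Finset E').filter (fun e => src e = v)).card = m := by
    intro v
    rw [hsum]
    have A3 : (Finset.univ.filter fun p : (Σ v : A ⊕ B, Fin (df v)) =>
        src (Sum.inr (Sum.inr p)) = v).card = df v := by
      rw [← hsig v]
      exact fcongr (fun p => by simp [src])
    rw [A3]
    rcases v with a | b
    · have A1 : (Finset.univ.filter fun e : E => src (Sum.inl e) = Sum.inl a).card =
          Nat.card {e // s e = a} := by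
        rw [← hcs a]
        exact fcongr (fun e => by simp [src])
      have A2 : (Finset.univ.filter fun e : E => src (Sum.inr (Sum.inl e)) = Sum.inl a).card = 0 :=
        fzero (fun e => by simp [src])
      have A4 : df (Sum.inl a) = m - Nat.card {e // s e = a} := rfl
      rw [A1, A2, A4]
      have := hs a
      omega
    · have A1 : (Finset.univ.filter fun e : E => src (Sum.inr (Sum.inl e)) = Sum.inr b).card =
          Nat.card {e // t e = b} := by
        rw [← hct b]
        exact fcongr (fun e => by simp [src])
      have A2 : (Finset.univ.filter fun e : E => src (Sum.inl e) = Sum.inr b).card = 0 :=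
        fzero (fun e => by simp [src])
      have A4 : df (Sum.inr b) = m - Nat.card {e // t e = b} := rfl
      rw [A1, A2, A4]
      have := ht b
      omega
  have h2 : ∀ v, ((Finset.univ : Finset E').filter (fun e => tgt e = v)).card = m := by
    intro v
    rw [hsum]
    have A3 : (Finset.univ.filter fun p : (Σ v : A ⊕ B, Fin (df v)) =>
        tgt (Sum.inr (Sum.inr p)) = v).card = df v := by
      rw [← hsig v]
      exact fcongr (fun p => by simp [tgt])
    rw [A3]
    rcases v with a | b
    · have A1 : (Finset.univ.filter fun e : E => tgt (Sum.inr (Sum.inl e)) = Sum.inl a).card =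
          Nat.card {e // s e = a} := by
        rw [← hcs a]
        exact fcongr (fun e => by simp [tgt])
      have A2 : (Finset.univ.filter fun e : E => tgt (Sum.inl e) = Sum.inl a).card = 0 :=
        fzero (fun e => by simp [tgt])
      have A4 : df (Sum.inl a) = m - Nat.card {e // s e = a} := rfl
      rw [A1, A2, A4]
      have := hs a
      omega
    · have A1 : (Finset.univ.filter fun e : E => tgt (Sum.inl e) = Sum.inr b).card =
          Nat.card {e // t e = b} := by
        rw [← hct b]
        exact fcongr (fun e => by simp [tgt])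
      have A2 : (Finset.univ.filter fun e : E => tgt (Sum.inr (Sum.inl e)) = Sum.inr b).card = 0 :=
        fzero (fun e => by simp [tgt])
      have A4 : df (Sum.inr b) = m - Nat.card {e // t e = b} := rfl
      rw [A1, A2, A4]
      have := ht b
      omega
  obtain ⟨c, hc1, hc2, hc3⟩ := koenig_aux src tgt rfl m Finset.univ h1 h2
  refine ⟨fun e => ⟨c (Sum.inl e), hc1 _ (Finset.mem_univ _)⟩, ?_, ?_⟩
  · intro e e' h h'
    have := hc2 (Sum.inl e) (Finset.mem_univ _) (Sum.inl e') (Finset.mem_univ _)
      (by simp [src, h]) (by simpa using h')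
    exact Sum.inl_injective this
  · intro e e' h h'
    have := hc3 (Sum.inl e) (Finset.mem_univ _) (Sum.inl e') (Finset.mem_univ _)
      (by simp [tgt, h]) (by simpa using h')
    exact Sum.inl_injective this


end Pool.Agent.R661.HY
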