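import Pool.Agent.R661.HY.Types

set_option autoImplicit false

/-! Complete multipartite graphs of even order in which a number `s` divides the sizes of all
parts. -/

namespace Pool.Agent.R661.HY

open Finset

theorem circ_mono {V : Type} {G : SimpleGraph V} {p M N : ℕ} (h : Circ G p M) (hMN : M ≤ N) :
    Circ G p N := by
  obtain ⟨fV, fE, h1, h2, h3, h4, h5⟩ := h
  have hr : (M : ℤ) ≤ N := by exact_mod_cast hMN
  exact ⟨fV, fE, fun v => (h1 v).trans_le hMN, fun e he => (h2 e he).trans_le hMN, h3, h4,
    fun u v h => ⟨(h5 u v h).1, (h5 u v h).2.trans (by linarith)⟩⟩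

/-- no edges -/
theorem circ_bot {V : Type} {G : SimpleGraph V} {p N : ℕ} (hN : 0 < N) (h : ∀ u v, ¬ G.Adj u v) :
    Circ G p N :=
  ⟨fun _ => 0, fun _ => 0, fun _ => hN, fun _ _ => hN, fun u v huv => (h u v huv).elim,
    fun u v _ huv => (h u v huv).elim, fun u v huv => (h u v huv).elim⟩

/-- ranks inside the parts -/
theorem exists_rank {V : Type} [Fintype V] (c : V → ℕ) : ∃ r : V → ℕ,
    (∀ v, r v < {u | c u = c v}.ncard) ∧ (∀ u v, c u = c v → r u = r v → u = v) := by
  classical
  let e := Fintype.equivFin V
  refine ⟨fun v => {u | c u = c v ∧ e u < e v}.ncard, ?_, ?_⟩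
  · intro v
    refine Set.ncard_lt_ncard ?_ (Set.toFinite _)
    refine ⟨fun u hu => hu.1, fun h => ?_⟩
    have h1 : v ∈ {u | c u = c v ∧ e u < e v} := h (show c v = c v from rfl)
    exact lt_irrefl _ h1.2
  · intro u v hc hr
    by_contra hne
    have hne' : e u ≠ e v := fun h => hne (e.injective h)
    have key : ∀ a b : V, c a = c b → e a < e b →
        {u | c u = c a ∧ e u < e a}.ncard < {u | c u = c b ∧ e u < e b}.ncard := by
      intro a b hab hlt
      refine Set.ncard_lt_ncard ?_ (Set.toFinite _)
      refine ⟨fun x hx => ⟨hx.1.trans hab, hx.2.trans hlt⟩, fun h => ?_⟩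
      have h1 : a ∈ {u | c u = c a ∧ e u < e a} := h ⟨hab, hlt⟩
      exact lt_irrefl _ h1.2
    rcases lt_or_gt_of_ne hne' with h | h
    · have := key u v hc h
      simp only at hr
      omega
    · have := key v u hc.symm h
      simp only at hr
      omega

/-- the vertices of a part with ranks in an interval -/
theorem rank_interval {V : Type} [Fintype V] (c : V → ℕ) (r : V → ℕ)
    (h1 : ∀ v, r v < {u | c u = c v}.ncard) (h2 : ∀ u v, c u = c v → r u = r v → u = v)
    (v0 : V) (a b : ℕ) (hb : b ≤ {u | c u = c v0}.ncard) :
    {u | c u = c v0 ∧ a ≤ r u ∧ r u < b}.ncard = b - a := by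
  classical
  set S : Finset V := univ.filter (fun u => c u = c v0) with hS
  have hcS : S.card = {u | c u = c v0}.ncard := by
    rw [← Set.ncard_coe_finset]
    congr 1
    ext u
    simp [hS]
  have himg : S.image r = range S.card := by
    refine eq_of_subset_of_card_le ?_ ?_
    · intro x hx
      obtain ⟨u, hu, rfl⟩ := mem_image.1 hx
      have h3 : c u = c v0 := (mem_filter.1 hu).2
      rw [mem_range, hcS]
      have := h1 u
      rwa [h3] at this
    · rw [card_range, card_image_of_injOn]
      intro u hu u' hu' he
      have h3 : c u = c v0 := (mem_filter.1 hu).2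
      have h4 : c u' = c v0 := (mem_filter.1 hu').2
      exact h2 u u' (h3.trans h4.symm) he
  have e1 : {u | c u = c v0 ∧ a ≤ r u ∧ r u < b} =
      ((S.filter fun u => a ≤ r u ∧ r u < b : Finset V) : Set V) := by
    ext u
    simp [hS]
  rw [e1, Set.ncard_coe_finset]
  have e2 : (S.filter fun u => a ≤ r u ∧ r u < b).image r = Ico a b := by
    ext x
    rw [mem_image, mem_Ico]
    constructor
    · rintro ⟨u, hu, rfl⟩
      exact (mem_filter.1 hu).2
    · rintro ⟨hx1, hx2⟩
      have h5 : x ∈ S.image r := by
        rw [himg, mem_range, hcS]
        omega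
      obtain ⟨u, hu, rfl⟩ := mem_image.1 h5
      exact ⟨u, mem_filter.2 ⟨hu, hx1, hx2⟩, rfl⟩
  have e3 : ((S.filter fun u => a ≤ r u ∧ r u < b).image r).card =
      (S.filter fun u => a ≤ r u ∧ r u < b).card := by
    refine card_image_of_injOn ?_
    intro u hu u' hu' he
    have h3 : c u = c v0 := (mem_filter.1 (mem_filter.1 hu).1).2
    have h4 : c u' = c v0 := (mem_filter.1 (mem_filter.1 hu').1).2
    exact h2 u u' (h3.trans h4.symm) he
  rw [← e3, e2, Nat.card_Ico]

theorem multi {V : Type} [Fintype V] (G : SimpleGraph V) (c : V → ℕ) (s p : ℕ) (hp : 1 ≤ p)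
    (hs : 1 ≤ s) (hadj : ∀ u v, G.Adj u v → c u ≠ c v)
    (hdiv : ∀ v, s ∣ {u | c u = c v}.ncard) (heven : Even (Fintype.card V)) :
    Circ G p (Fintype.card V - s + 2 * p) := by
  classical
  obtain ⟨r, hr1, hr2⟩ := exists_rank c
  let b : V → ℕ × ℕ := fun v => (c v, r v / s)
  -- the blocks have `s` elements
  have hupper : ∀ v, s * (r v / s) + s ≤ {u | c u = c v}.ncard := by
    intro v
    obtain ⟨q, hq⟩ := hdiv v
    have h1 := hr1 v
    rw [hq] at h1 ⊢
    have h2 : r v / s < q := by
      rw [Nat.div_lt_iff_lt_mul (by omega), Nat.mul_comm]
      exact h1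
    calc s * (r v / s) + s = s * (r v / s + 1) := by ring
      _ ≤ s * q := Nat.mul_le_mul_left _ h2
  have hfib : ∀ v, {u | b u = b v}.ncard = s := by
    intro v
    have h1 := rank_interval c r hr1 hr2 v (s * (r v / s)) (s * (r v / s) + s) (hupper v)
    rw [Nat.add_sub_cancel_left] at h1
    rw [← h1]
    congr 1
    ext u
    simp only [b, Set.mem_setOf_eq, Prod.mk.injEq]
    constructor
    · rintro ⟨a1, a2⟩
      rw [← a2]
      exact ⟨a1, Nat.mul_div_le _ _, Nat.lt_mul_div_succ _ (by omega)⟩
    · rintro ⟨a1, a2, a3⟩
      refine ⟨a1, ?_⟩
      apply le_antisymm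
      · rw [← Nat.lt_succ_iff, Nat.div_lt_iff_lt_mul (by omega)]
        calc r u < s * (r v / s) + s := a3
          _ = (r v / s).succ * s := by rw [Nat.succ_mul, Nat.mul_comm]
      · rw [Nat.le_div_iff_mul_le (by omega), Nat.mul_comm]
        exact a2
  set B : Finset (ℕ × ℕ) := univ.image b with hB
  have hn : Fintype.card V = s * B.card := by
    have h1 := card_eq_sum_card_fiberwise (f := b) (s := (univ : Finset V)) (t := B)
      (fun v _ => mem_coe.2 (mem_image_of_mem b (mem_univ v)))
    have h2 : ∀ β ∈ B, (univ.filter fun v => b v = β).card = s := by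
      intro β hβ
      obtain ⟨v, _, rfl⟩ := mem_image.1 hβ
      rw [← hfib v, ← Set.ncard_coe_finset]
      congr 1
      ext u
      simp
    rw [sum_congr rfl h2, sum_const, smul_eq_mul, card_univ, Nat.mul_comm] at h1
    exact h1
  let ix : V → ℕ := fun v => (B.equivFin ⟨b v, mem_image_of_mem b (mem_univ v)⟩ : ℕ)
  have hix : ∀ v, ix v < B.card := fun v => (B.equivFin _).2
  have hixb : ∀ u v, ix u = ix v → b u = b v := by
    intro u v h
    have h1 := B.equivFin.injective (Fin.ext h)
    exact congrArg Subtype.val h1
  have hbix : ∀ u v, b u = b v → ix u = ix v := by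
    intro u v h
    simp only [ix]
    congr 2
    exact Subtype.ext h
  have hbc : ∀ u v, ix u = ix v → ¬ G.Adj u v := by
    intro u v h huv
    have h1 := hixb u v h
    exact hadj u v huv (congrArg Prod.fst h1)
  set M := B.card with hM
  rcases Nat.even_or_odd M with hMe | hMo
  · -- an even number of blocks
    obtain ⟨m, hm⟩ := hMe
    rcases Nat.lt_or_ge 1 s with hs2 | hs1
    · have h := types G m s p 0 (fun _ _ => True) ix hp hs (fun _ _ => Nat.zero_le _)
        (fun _ _ => Nat.zero_le _) (Or.inl hs2) (fun u v huv => ⟨by have := hix u; omega,
          by have := hix v; omega, fun h => hbc u v h huv, fun _ _ => trivial,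
          fun _ _ => trivial⟩) (by
          intro v y
          by_cases hy : ∃ u, ix u = y
          · obtain ⟨u, rfl⟩ := hy
            rw [← hfib u]
            exact Set.ncard_le_ncard (fun x hx => hixb x u hx.2) (Set.toFinite _)
          · have : {u | G.Adj v u ∧ ix u = y} = ∅ := by
              ext u
              simp only [Set.mem_setOf_eq, Set.mem_empty_iff_false, iff_false]
              rintro ⟨_, h⟩
              exact hy ⟨u, h⟩
            rw [this, Set.ncard_empty]
            exact Nat.zero_le _)
      refine circ_mono h ?_
      rw [hn]
      have e1 : (2 * m - 1 - 0) * s = s * M - s := by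
        rw [Nat.sub_zero, Nat.sub_mul, one_mul, hm, Nat.mul_comm s]
        congr 2
        omega
      omega
    · have hs' : s = 1 := by omega
      subst hs'
      rcases Nat.eq_zero_or_pos M with h0 | h0
      · refine circ_bot (by omega) ?_
        intro u v _
        have := hix u
        omega
      · have h := single G M p ix hp h0 hix (fun u v huv h => hbc u v h huv) (by
          intro u v v' _ _ h
          have h1 := hixb v v' h
          simp only [b, Nat.div_one, Prod.mk.injEq] at h1
          exact hr2 v v' h1.1 h1.2)
        refine circ_mono h ?_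
        rw [hn]
        omega
  · -- an odd number of blocks
    have hs2 : Even s := by
      rw [hn] at heven
      rcases Nat.even_mul.1 heven with h | h
      · exact h
      · exact ((Nat.not_even_iff_odd.2 hMo) h).elim
    obtain ⟨w, hw⟩ := hs2
    have hw1 : 1 ≤ w := by omega
    rcases Nat.lt_or_ge 1 M with hM1 | hM1
    · -- half blocks
      let hf : V → ℕ := fun v => (r v / w) % 2
      let t : V → ℕ := fun v => if hf v = 0 then 2 * ix v else 2 * ((ix v + 1) % M) + 1
      have hmod : ∀ i, i < M → (i + 1) % M = if i + 1 < M then i + 1 else 0 := by
        intro i hi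
        split_ifs with h
        · exact Nat.mod_eq_of_lt h
        · have : i + 1 = M := by omega
          rw [this, Nat.mod_self]
      have hmodlt : ∀ i, (i + 1) % M < M := fun i => Nat.mod_lt _ (by omega)
      have hmodinj : ∀ i j, i < M → j < M → (i + 1) % M = (j + 1) % M → i = j := by
        intro i j hi hj h
        rw [hmod i hi, hmod j hj] at h
        split_ifs at h <;> omega
      have h := types G M w p 1 (fun i j => j ≠ (i + 1) % M) t hp hw1 (by
          intro i hi
          refine (Set.ncard_pos ((Set.finite_Iio M).subset fun j hj => hj.1)).2 ?_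
          refine ⟨(i + 1) % M, hmodlt i, ?_, fun h => h rfl⟩
          rw [hmod i hi]
          split_ifs <;> omega) (by
          intro j hj
          refine (Set.ncard_pos ((Set.finite_Iio M).subset fun j hj => hj.1)).2 ?_
          refine ⟨if j = 0 then M - 1 else j - 1, ?_, ?_, ?_⟩
          · split_ifs <;> omega
          · split_ifs <;> omega
          · intro h
            apply h
            rw [hmod _ (by split_ifs <;> omega)]
            split_ifs <;> omega) (by
          right
          intro i hi h
          apply h
          rw [hmod i (by omega), if_pos hi]) (by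
          intro u v huv
          have h1 := hix u
          have h2 := hix v
          have h3 := hmodlt (ix u)
          have h4 := hmodlt (ix v)
          have h5 : ix u ≠ ix v := fun h => hbc u v h huv
          have h6 : (ix u + 1) % M ≠ (ix v + 1) % M := fun h => h5 (hmodinj _ _ h1 h2 h)
          refine ⟨?_, ?_, ?_, ?_, ?_⟩
          · simp only [t]
            split_ifs <;> omega
          · simp only [t]
            split_ifs <;> omega
          · simp only [t]
            split_ifs <;> omega
          · intro hx hy he
            simp only [t] at hx hy he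
            by_cases hu : hf u = 0
            · by_cases hv : hf v = 0
              · rw [if_pos hv] at hy
                omega
              · rw [if_pos hu, if_neg hv] at he
                have e1 : (2 * ((ix v + 1) % M) + 1) / 2 = (ix v + 1) % M := by omega
                have e2 : 2 * ix u / 2 = ix u := by omega
                rw [e1, e2] at he
                exact h5 (hmodinj _ _ h1 h2 he.symm)
            · rw [if_neg hu] at hx
              omega
          · intro hx hy he
            simp only [t] at hx hy he
            by_cases hu : hf u = 0
            · rw [if_pos hu] at hx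
              omega
            · by_cases hv : hf v = 0
              · rw [if_neg hu, if_pos hv] at he
                have e1 : (2 * ((ix u + 1) % M) + 1) / 2 = (ix u + 1) % M := by omega
                have e2 : 2 * ix v / 2 = ix v := by omega
                rw [e1, e2] at he
                exact h5 (hmodinj _ _ h1 h2 he)
              · rw [if_neg hv] at hy
                omega) (by
          intro v y
          by_cases hy : ∃ u, t u = y
          · obtain ⟨u, rfl⟩ := hy
            have key : {x | G.Adj v x ∧ t x = t u} ⊆ {x | c x = c u ∧
                s * (r u / s) + w * hf u ≤ r x ∧ r x < s * (r u / s) + w * hf u + w} := by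
              rintro x ⟨_, hx⟩
              have hhx : hf x = hf u := by
                have a1 : hf x < 2 := Nat.mod_lt _ (by norm_num)
                have a2 : hf u < 2 := Nat.mod_lt _ (by norm_num)
                simp only [t] at hx
                split_ifs at hx <;> omega
              have hix' : ix x = ix u := by
                simp only [t, hhx] at hx
                split_ifs at hx
                · omega
                · exact hmodinj _ _ (hix x) (hix u) (by omega)
              have hb := hixb x u hix'
              simp only [b, Prod.mk.injEq] at hb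
              refine ⟨hb.1, ?_⟩
              rw [← hb.2, ← hhx]
              -- `r x = s (r x / s) + w h + rest`
              have e1 : r x / s = r x / w / 2 := by
                rw [Nat.div_div_eq_div_mul, hw, ← Nat.mul_two]
              have e2 : s * (r x / s) + w * hf x = w * (r x / w) := by
                rw [e1]
                have e3 := Nat.div_add_mod (r x / w) 2
                calc s * (r x / w / 2) + w * hf x = w * (2 * (r x / w / 2) + (r x / w) % 2) := by
                      rw [hw]; simp only [hf]; ring
                  _ = _ := by rw [e3]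
              rw [e2]
              exact ⟨Nat.mul_div_le _ _, Nat.lt_mul_div_succ _ (by omega)⟩
            have hub := hupper u
            have hlt : hf u < 2 := Nat.mod_lt _ (by norm_num)
            have h7 : w * hf u ≤ w := by
              calc w * hf u ≤ w * 1 := Nat.mul_le_mul_left _ (by omega)
                _ = w := Nat.mul_one _
            have h8 := rank_interval c r hr1 hr2 u (s * (r u / s) + w * hf u)
              (s * (r u / s) + w * hf u + w) (by omega)
            rw [Nat.add_sub_cancel_left] at h8
            calc _ ≤ _ := Set.ncard_le_ncard key (Set.toFinite _)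
              _ = w := h8
          · have : {u | G.Adj v u ∧ t u = y} = ∅ := by
              ext u
              simp only [Set.mem_setOf_eq, Set.mem_empty_iff_false, iff_false]
              rintro ⟨_, h⟩
              exact hy ⟨u, h⟩
            rw [this, Set.ncard_empty]
            exact Nat.zero_le _)
      refine circ_mono h ?_
      rw [hn]
      have e1 : (2 * M - 1 - 1) * w = s * M - s := by
        have e2 : 2 * M - 1 - 1 = 2 * (M - 1) := by omega
        rw [e2, hw]
        calc 2 * (M - 1) * w = (w + w) * (M - 1) := by ring
          _ = (w + w) * M - (w + w) := by rw [Nat.mul_sub, Nat.mul_one]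
      omega
    · refine circ_bot (by omega) ?_
      intro u v huv
      have h1 := hix u
      have h2 := hix v
      exact hbc u v (by omega) huv

end Pool.Agent.R661.HY
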