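import Pool.Agent.R661.HY.Types

set_option autoImplicit false

/-! A cyclic order without bad consecutive pairs. -/

namespace Pool.Agent.R661.HY

open Finset

theorem exists_order {X : Type} [Fintype X] (m k : ℕ) [NeZero m] (hX : Fintype.card X = m)
    (bad : X → X → Prop) (h1 : ∀ x, {y | y ≠ x ∧ bad x y}.ncard ≤ k)
    (h2 : ∀ y, {x | x ≠ y ∧ bad x y}.ncard ≤ k) (hm : 4 * k + 4 ≤ m) :
    ∃ π : ZMod m ≃ X, ∀ a, ¬ bad (π a) (π (a + 1)) := by
  classical
  have hm4 : 4 ≤ m := by omega
  have hcardZ : Fintype.card (ZMod m) = m := ZMod.card m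
  have hne01 : (1 : ZMod m) ≠ 0 := by
    intro h
    have h3 : ((1 : ℕ) : ZMod m) = 0 := by exact_mod_cast h
    rw [ZMod.natCast_eq_zero_iff] at h3
    have := Nat.le_of_dvd (by norm_num) h3
    omega
  have hne02 : (2 : ZMod m) ≠ 0 := by
    intro h
    have h3 : ((2 : ℕ) : ZMod m) = 0 := by exact_mod_cast h
    rw [ZMod.natCast_eq_zero_iff] at h3
    have := Nat.le_of_dvd (by norm_num) h3
    omega
  have hsucc : ∀ a : ZMod m, a + 1 ≠ a := by
    intro a h
    exact hne01 (by simpa using h)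
  let cnt : (ZMod m ≃ X) → ℕ := fun π => (univ.filter fun a => bad (π a) (π (a + 1))).card
  have hne : (univ : Finset (ZMod m ≃ X)).Nonempty :=
    ⟨Fintype.equivOfCardEq (by rw [hcardZ, hX]), mem_univ _⟩
  obtain ⟨π, _, hπ⟩ := exists_min_image univ cnt hne
  refine ⟨π, fun a0 hbad => ?_⟩
  -- look for a good position for the exchange
  set y := π (a0 + 1) with hy
  let F1 : Finset (ZMod m) := univ.filter fun b => π b ≠ π a0 ∧ bad (π a0) (π b)
  let F2 : Finset (ZMod m) := univ.filter fun b => π b ≠ π (a0 + 2) ∧ bad (π b) (π (a0 + 2))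
  let F3 : Finset (ZMod m) := univ.filter fun b => π (b - 1) ≠ y ∧ bad (π (b - 1)) y
  let F4 : Finset (ZMod m) := univ.filter fun b => π (b + 1) ≠ y ∧ bad y (π (b + 1))
  have c1 : F1.card ≤ k := by
    refine le_trans ?_ (h1 (π a0))
    rw [← Set.ncard_coe_finset]
    refine Set.ncard_le_ncard_of_injOn π ?_ π.injective.injOn (Set.toFinite _)
    intro b hb
    exact (mem_filter.1 (mem_coe.1 hb)).2
  have c2 : F2.card ≤ k := by
    refine le_trans ?_ (h2 (π (a0 + 2)))
    rw [← Set.ncard_coe_finset]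
    refine Set.ncard_le_ncard_of_injOn π ?_ π.injective.injOn (Set.toFinite _)
    intro b hb
    exact (mem_filter.1 (mem_coe.1 hb)).2
  have c3 : F3.card ≤ k := by
    refine le_trans ?_ (h2 y)
    rw [← Set.ncard_coe_finset]
    refine Set.ncard_le_ncard_of_injOn (fun b => π (b - 1)) ?_ ?_ (Set.toFinite _)
    · intro b hb
      exact (mem_filter.1 (mem_coe.1 hb)).2
    · intro b _ b' _ h
      have := π.injective h
      simpa using this
  have c4 : F4.card ≤ k := by
    refine le_trans ?_ (h1 y)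
    rw [← Set.ncard_coe_finset]
    refine Set.ncard_le_ncard_of_injOn (fun b => π (b + 1)) ?_ ?_ (Set.toFinite _)
    · intro b hb
      exact (mem_filter.1 (mem_coe.1 hb)).2
    · intro b _ b' _ h
      have := π.injective h
      simpa using this
  have hex : ∃ b : ZMod m, b ∉ F1 ∪ F2 ∪ F3 ∪ F4 ∪ {a0, a0 + 1, a0 + 2} := by
    by_contra hcon
    push Not at hcon
    have h5 : (univ : Finset (ZMod m)).card ≤
        (F1 ∪ F2 ∪ F3 ∪ F4 ∪ {a0, a0 + 1, a0 + 2}).card := card_le_card fun b _ => hcon b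
    rw [card_univ, hcardZ] at h5
    have h6 := card_union_le (F1 ∪ F2 ∪ F3 ∪ F4) {a0, a0 + 1, a0 + 2}
    have h7 := card_union_le (F1 ∪ F2 ∪ F3) F4
    have h8 := card_union_le (F1 ∪ F2) F3
    have h9 := card_union_le F1 F2
    have h10 : ({a0, a0 + 1, a0 + 2} : Finset (ZMod m)).card ≤ 3 := card_le_three
    omega
  obtain ⟨b, hb⟩ := hex
  simp only [mem_union, mem_insert, mem_singleton, not_or] at hb
  obtain ⟨⟨⟨⟨hb1, hb2⟩, hb3⟩, hb4⟩, hb5, hb6, hb7⟩ := hb
  have g1 : ¬ bad (π a0) (π b) := fun h => hb1 (mem_filter.2 ⟨mem_univ _,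
    fun h' => hb5 (π.injective h'), h⟩)
  have g2 : ¬ bad (π b) (π (a0 + 2)) := fun h => hb2 (mem_filter.2 ⟨mem_univ _,
    fun h' => hb7 (π.injective h'), h⟩)
  have g3 : ¬ bad (π (b - 1)) y := fun h => hb3 (mem_filter.2 ⟨mem_univ _, fun h' => hb7 (by
    have := π.injective h'
    have h'' : b = a0 + 1 + 1 := by rw [← this]; ring
    rw [h'']; ring), h⟩)
  have g4 : ¬ bad y (π (b + 1)) := fun h => hb4 (mem_filter.2 ⟨mem_univ _, fun h' => hb5 (by
    have := π.injective h'
    exact add_right_cancel this), h⟩)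
  -- the exchange
  let π' : ZMod m ≃ X := (Equiv.swap (a0 + 1) b).trans π
  have e0 : ∀ a, a ≠ a0 + 1 → a ≠ b → π' a = π a := by
    intro a h h'
    change π (Equiv.swap (a0 + 1) b a) = π a
    rw [Equiv.swap_apply_of_ne_of_ne h h']
  have e1 : π' (a0 + 1) = π b := by
    change π (Equiv.swap (a0 + 1) b (a0 + 1)) = π b
    rw [Equiv.swap_apply_left]
  have e2 : π' b = y := by
    change π (Equiv.swap (a0 + 1) b b) = y
    rw [Equiv.swap_apply_right]
  have hlt : cnt π' < cnt π := by
    refine card_lt_card ?_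
    rw [ssubset_iff_of_subset]
    · refine ⟨a0, mem_filter.2 ⟨mem_univ _, hbad⟩, ?_⟩
      intro h
      have h' := (mem_filter.1 h).2
      rw [e1, e0 a0 (fun h => hsucc a0 h.symm) (fun h => hb5 h.symm)] at h'
      exact g1 h'
    · intro a ha
      have ha' := (mem_filter.1 ha).2
      refine mem_filter.2 ⟨mem_univ _, ?_⟩
      by_cases i1 : a = a0
      · rw [i1]; exact hbad
      by_cases i2 : a = a0 + 1
      · exfalso
        rw [i2, e1] at ha'
        have i3 : a0 + 1 + 1 = a0 + 2 := by ring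
        rw [i3, e0 (a0 + 2) (by
          intro h
          apply hne01
          have : a0 + 2 = a0 + 1 + 1 := by ring
          rw [this] at h
          simpa using h) (fun h => hb7 h.symm)] at ha'
        exact g2 ha'
      by_cases i3 : a = b
      · exfalso
        rw [i3, e2, e0 (b + 1) (fun h => hb5 (add_right_cancel h)) (hsucc b)] at ha'
        exact g4 ha'
      by_cases i4 : a + 1 = b
      · exfalso
        rw [i4, e2, e0 a i2 i3] at ha'
        have : a = b - 1 := by rw [← i4]; ring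
        rw [this] at ha'
        exact g3 ha'
      · rw [e0 a i2 i3, e0 (a + 1) (fun h => i1 (add_right_cancel h)) i4] at ha'
        exact ha'
  have := hπ π' (mem_univ _)
  omega

end Pool.Agent.R661.HY
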