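import Pool.Agent.R661.HY.Blow

set_option autoImplicit false

/-! An interval edge colouring of the complete graph on `2 m` types, and of its subgraphs in which
every type `u_i` is not adjacent to at least `k` of the types `v_j`, `j ≠ i`, and conversely. The
type `2 i` is `u_i`, the type `2 i + 1` is `v_i`. -/

namespace Pool.Agent.R661.HY

open Finset

/-- the colours of the first kind -/
def gg (m k S : ℕ) : ℕ := if S < m then S else S + (m - 1 - k)

/-- the colouring of the types; `c i j` is the colour of `u_i v_j` for `i ≠ j` -/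
def col (m k : ℕ) (c : ℕ → ℕ → ℕ) (x y : ℕ) : ℕ :=
  if x % 2 = y % 2 ∨ x / 2 = y / 2 then gg m k (x / 2 + y / 2) else
    m + (if x % 2 = 0 then c (x / 2) (y / 2) else c (y / 2) (x / 2))

theorem col_symm (m k : ℕ) (c : ℕ → ℕ → ℕ) (x y : ℕ) : col m k c x y = col m k c y x := by
  unfold col
  by_cases h : x % 2 = y % 2 ∨ x / 2 = y / 2
  · have h' : y % 2 = x % 2 ∨ y / 2 = x / 2 := by omega
    rw [if_pos h, if_pos h', Nat.add_comm]
  · have h' : ¬ (y % 2 = x % 2 ∨ y / 2 = x / 2) := by omega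
    rw [if_neg h, if_neg h']
    rcases Nat.mod_two_eq_zero_or_one x with hx | hx
    · have hy : ¬ y % 2 = 0 := by omega
      rw [if_pos hx, if_neg hy]
    · have hy : y % 2 = 0 := by omega
      have hx' : ¬ x % 2 = 0 := by omega
      rw [if_neg hx', if_pos hy]

/-- the pairs of adjacent types: `A i j` says that `u_i` and `v_j` may be adjacent -/
def RR (m : ℕ) (A : ℕ → ℕ → Prop) (x y : ℕ) : Prop :=
  x < 2 * m ∧ y < 2 * m ∧ x ≠ y ∧
    (x % 2 = 0 → y % 2 = 1 → A (x / 2) (y / 2)) ∧
    (x % 2 = 1 → y % 2 = 0 → A (y / 2) (x / 2))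

/-- the colours of the edges `u_i v_j`, `i ≠ j` -/
theorem exists_c (m k : ℕ) (A : ℕ → ℕ → Prop)
    (h1 : ∀ i < m, k ≤ {j | j < m ∧ j ≠ i ∧ ¬ A i j}.ncard)
    (h2 : ∀ j < m, k ≤ {i | i < m ∧ i ≠ j ∧ ¬ A i j}.ncard) :
    ∃ c : ℕ → ℕ → ℕ, (∀ i j, i < m → j < m → i ≠ j → A i j → c i j < m - 1 - k) ∧
      (∀ i j j', i < m → j < m → j' < m → i ≠ j → i ≠ j' → A i j → A i j' →
        c i j = c i j' → j = j') ∧
      (∀ i i' j, i < m → i' < m → j < m → i ≠ j → i' ≠ j → A i j → A i' j →
        c i j = c i' j → i = i') := by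
  classical
  let E : Type := {q : Fin m × Fin m // (q.1 : ℕ) ≠ q.2 ∧ A q.1 q.2}
  have hcount : ∀ (S : Set ℕ) (P : ℕ → Prop) (a : ℕ), a < m → S = {j | j < m ∧ j ≠ a ∧ P j} →
      k ≤ {j | j < m ∧ j ≠ a ∧ ¬ P j}.ncard → S.ncard ≤ m - 1 - k := by
    intro S P a ha hS hk
    have e1 : S ∪ {j | j < m ∧ j ≠ a ∧ ¬ P j} = ((range m).erase a : Finset ℕ) := by
      ext j
      rw [hS]
      simp only [Set.mem_union, Set.mem_setOf_eq, coe_erase, coe_range, Set.mem_diff, Set.mem_Iio,
        Set.mem_singleton_iff]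
      tauto
    have e2 : Disjoint S {j | j < m ∧ j ≠ a ∧ ¬ P j} := by
      rw [Set.disjoint_left, hS]
      rintro j ⟨_, _, h⟩ ⟨_, _, h'⟩
      exact h' h
    have f1 : S.Finite := by
      rw [hS]
      exact (Set.finite_Iio m).subset fun j hj => hj.1
    have f2 : {j | j < m ∧ j ≠ a ∧ ¬ P j}.Finite :=
      (Set.finite_Iio m).subset fun j hj => hj.1
    have h3 := Set.ncard_union_eq e2 f1 f2
    rw [e1, Set.ncard_coe_finset, card_erase_of_mem (mem_range.2 ha), card_range] at h3
    omega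
  obtain ⟨c, hc1, hc2⟩ := koenig_le (fun e : E => e.1.1) (fun e : E => e.1.2) (m - 1 - k) (by
    intro i
    refine le_trans ?_ (hcount {j | j < m ∧ j ≠ (i : ℕ) ∧ A i j} (fun j => A i j) i i.2 rfl
      (h1 i i.2))
    rw [← Nat.card_coe_set_eq]
    have : Finite {j | j < m ∧ j ≠ (i : ℕ) ∧ A i j} :=
      ((Set.finite_Iio m).subset fun j hj => hj.1)
    refine Nat.card_le_card_of_injective
      (fun e : {e : E // e.1.1 = i} => (⟨e.1.1.2, e.1.1.2.2, by
        have h := e.2
        have h4 := e.1.2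
        rw [h] at h4
        exact ⟨fun h5 => h4.1 h5.symm, h4.2⟩⟩ : {j | j < m ∧ j ≠ (i : ℕ) ∧ A i j})) ?_
    intro e e' he
    have h5 : (e.1.1.2 : ℕ) = e'.1.1.2 := congrArg Subtype.val he
    apply Subtype.ext
    apply Subtype.ext
    exact Prod.ext (e.2.trans e'.2.symm) (Fin.ext h5)) (by
    intro j
    refine le_trans ?_ (hcount {i | i < m ∧ i ≠ (j : ℕ) ∧ A i j} (fun i => A i j) j j.2 rfl
      (h2 j j.2))
    rw [← Nat.card_coe_set_eq]
    have : Finite {i | i < m ∧ i ≠ (j : ℕ) ∧ A i j} :=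
      ((Set.finite_Iio m).subset fun j hj => hj.1)
    refine Nat.card_le_card_of_injective
      (fun e : {e : E // e.1.2 = j} => (⟨e.1.1.1, e.1.1.1.2, by
        have h := e.2
        have h4 := e.1.2
        rw [h] at h4
        exact h4⟩ : {i | i < m ∧ i ≠ (j : ℕ) ∧ A i j})) ?_
    intro e e' he
    have h5 : (e.1.1.1 : ℕ) = e'.1.1.1 := congrArg Subtype.val he
    apply Subtype.ext
    apply Subtype.ext
    exact Prod.ext (Fin.ext h5) (e.2.trans e'.2.symm))
  let cf : ℕ → ℕ → ℕ := fun i j =>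
    if h : ∃ (hi : i < m) (hj : j < m), i ≠ j ∧ A i j then
      (c ⟨(⟨i, h.1⟩, ⟨j, h.2.1⟩), h.2.2⟩ : ℕ) else 0
  have hcf : ∀ i j (hi : i < m) (hj : j < m) (h : i ≠ j ∧ A i j),
      cf i j = (c ⟨(⟨i, hi⟩, ⟨j, hj⟩), h⟩ : ℕ) := by
    intro i j hi hj h
    have h' : ∃ (hi : i < m) (hj : j < m), i ≠ j ∧ A i j := ⟨hi, hj, h⟩
    simp only [cf, dif_pos h']
  refine ⟨cf, ?_, ?_, ?_⟩
  · intro i j hi hj hij hA
    rw [hcf i j hi hj ⟨hij, hA⟩]
    exact (c _).2
  · intro i j j' hi hj hj' hij hij' hA hA' he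
    rw [hcf i j hi hj ⟨hij, hA⟩, hcf i j' hi hj' ⟨hij', hA'⟩] at he
    have h4 := hc1 _ _ (by rfl) (Fin.ext he)
    have h5 := congrArg (fun e : E => (e.1.2 : ℕ)) h4
    exact h5
  · intro i i' j hi hi' hj hij hij' hA hA' he
    rw [hcf i j hi hj ⟨hij, hA⟩, hcf i' j hi' hj ⟨hij', hA'⟩] at he
    have h4 := hc2 _ _ (by rfl) (Fin.ext he)
    have h5 := congrArg (fun e : E => (e.1.1 : ℕ)) h4
    exact h5

/-- the main construction -/
theorem types {V : Type} [Fintype V] (G : SimpleGraph V) (m w p k : ℕ) (A : ℕ → ℕ → Prop)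
    (t : V → ℕ) (hp : 1 ≤ p) (hw1 : 1 ≤ w)
    (h1 : ∀ i < m, k ≤ {j | j < m ∧ j ≠ i ∧ ¬ A i j}.ncard)
    (h2 : ∀ j < m, k ≤ {i | i < m ∧ i ≠ j ∧ ¬ A i j}.ncard)
    (hcond : 2 ≤ w ∨ ∀ i, i + 1 < m → ¬ A i (i + 1))
    (hR : ∀ u v, G.Adj u v → RR m A (t u) (t v))
    (hw : ∀ v y, {u | G.Adj v u ∧ t u = y}.ncard ≤ w) :
    Circ G p ((2 * m - 1 - k) * w + 2 * p) := by
  obtain ⟨c, hc1, hc2, hc3⟩ := exists_c m k A h1 h2
  have hkm : ∀ x, x < 2 * m → k ≤ m - 1 := by
    intro x hx
    have h3 := h1 (x / 2) (by omega)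
    have h4 : {j | j < m ∧ j ≠ x / 2 ∧ ¬ A (x / 2) j}.ncard ≤
        (((range m).erase (x / 2) : Finset ℕ) : Set ℕ).ncard := by
      refine Set.ncard_le_ncard ?_ (Set.toFinite _)
      rintro j ⟨a1, a2, _⟩
      rw [mem_coe, mem_erase, mem_range]
      exact ⟨a2, a1⟩
    rw [Set.ncard_coe_finset, card_erase_of_mem (mem_range.2 (by omega)), card_range] at h4
    omega
  refine blow G t (RR m A) w p (2 * m - 1 - k) _ hp rfl (fun x h => h.2.2.1 rfl) hR hw
    (col m k c) (col_symm m k c) (fun x => x / 2) (fun x => 1 - x % 2) ?_ ?_ (fun x => by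
      omega) ?_
  · intro x y h
    have hk := hkm x h.1
    obtain ⟨a1, a2, a3, a4, a5⟩ := h
    unfold col
    by_cases h : x % 2 = y % 2 ∨ x / 2 = y / 2
    · rw [if_pos h]
      unfold gg
      split_ifs with h6 <;> omega
    · rw [if_neg h]
      rcases Nat.mod_two_eq_zero_or_one x with hx | hx
      · rw [if_pos hx]
        have := hc1 (x / 2) (y / 2) (by omega) (by omega) (by omega) (a4 hx (by omega))
        omega
      · have hx' : ¬ x % 2 = 0 := by omega
        rw [if_neg hx']
        have := hc1 (y / 2) (x / 2) (by omega) (by omega) (by omega) (a5 hx (by omega))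
        omega
  · intro x y z h h' he
    have hk := hkm x h.1
    obtain ⟨a1, a2, a3, a4, a5⟩ := h
    obtain ⟨-, b2, b3, b4, b5⟩ := h'
    unfold col at he
    by_cases hy : x % 2 = y % 2 ∨ x / 2 = y / 2
    · by_cases hz : x % 2 = z % 2 ∨ x / 2 = z / 2
      · rw [if_pos hy, if_pos hz] at he
        unfold gg at he
        split_ifs at he <;> omega
      · rw [if_pos hy, if_neg hz] at he
        exfalso
        rcases Nat.mod_two_eq_zero_or_one x with hx | hx
        · rw [if_pos hx] at he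
          have := hc1 (x / 2) (z / 2) (by omega) (by omega) (by omega) (b4 hx (by omega))
          unfold gg at he
          split_ifs at he <;> omega
        · have hx' : ¬ x % 2 = 0 := by omega
          rw [if_neg hx'] at he
          have := hc1 (z / 2) (x / 2) (by omega) (by omega) (by omega) (b5 hx (by omega))
          unfold gg at he
          split_ifs at he <;> omega
    · by_cases hz : x % 2 = z % 2 ∨ x / 2 = z / 2
      · rw [if_neg hy, if_pos hz] at he
        exfalso
        rcases Nat.mod_two_eq_zero_or_one x with hx | hx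
        · rw [if_pos hx] at he
          have := hc1 (x / 2) (y / 2) (by omega) (by omega) (by omega) (a4 hx (by omega))
          unfold gg at he
          split_ifs at he <;> omega
        · have hx' : ¬ x % 2 = 0 := by omega
          rw [if_neg hx'] at he
          have := hc1 (y / 2) (x / 2) (by omega) (by omega) (by omega) (a5 hx (by omega))
          unfold gg at he
          split_ifs at he <;> omega
      · rw [if_neg hy, if_neg hz] at he
        rcases Nat.mod_two_eq_zero_or_one x with hx | hx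
        · rw [if_pos hx, if_pos hx] at he
          have := hc2 (x / 2) (y / 2) (z / 2) (by omega) (by omega) (by omega) (by omega)
            (by omega) (a4 hx (by omega)) (b4 hx (by omega)) (by omega)
          omega
        · have hx' : ¬ x % 2 = 0 := by omega
          rw [if_neg hx', if_neg hx'] at he
          have := hc3 (y / 2) (z / 2) (x / 2) (by omega) (by omega) (by omega) (by omega)
            (by omega) (a5 hx (by omega)) (b5 hx (by omega)) (by omega)
          omega
  · intro x y h he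
    have hc := hkm x h.1
    obtain ⟨a1, a2, a3, a4, a5⟩ := h
    have b0 : m * w ≤ (2 * m - 1 - k) * w := Nat.mul_le_mul_right _ (by omega)
    have b1 : w * (x / 2) + w ≤ m * w := by
      calc w * (x / 2) + w = w * (x / 2 + 1) := by ring
        _ ≤ w * m := Nat.mul_le_mul_left _ (by omega)
        _ = m * w := Nat.mul_comm _ _
    have b2 : w * (y / 2) + w ≤ m * w := by
      calc w * (y / 2) + w = w * (y / 2 + 1) := by ring
        _ ≤ w * m := Nat.mul_le_mul_left _ (by omega)
        _ = m * w := Nat.mul_comm _ _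
    have he' := eq_of_mod he (by omega) (by omega)
    have key : ∀ i j : ℕ, i < j → w * i + w ≤ w * j := by
      intro i j hij
      calc w * i + w = w * (i + 1) := by ring
        _ ≤ w * j := Nat.mul_le_mul_left _ hij
    rcases Nat.lt_trichotomy (x / 2) (y / 2) with h6 | h6 | h6
    · have h7 := key _ _ h6
      have h8 : w = 1 ∧ x % 2 = 0 ∧ y % 2 = 1 := by omega
      obtain ⟨e1, e2, e3⟩ := h8
      subst e1
      have h9 : ∀ i, i + 1 < m → ¬ A i (i + 1) := by
        rcases hcond with h | h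
        · omega
        · exact h
      have h11 : y / 2 = x / 2 + 1 := by omega
      have h10 := a4 e2 e3
      rw [h11] at h10
      exact h9 (x / 2) (by omega) h10
    · rw [h6] at he'
      omega
    · have h7 := key _ _ h6
      have h8 : w = 1 ∧ x % 2 = 1 ∧ y % 2 = 0 := by omega
      obtain ⟨e1, e2, e3⟩ := h8
      subst e1
      have h9 : ∀ i, i + 1 < m → ¬ A i (i + 1) := by
        rcases hcond with h | h
        · omega
        · exact h
      have h11 : x / 2 = y / 2 + 1 := by omega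
      have h10 := a5 e2 e3
      rw [h11] at h10
      exact h9 (y / 2) (by omega) h10

/-- the case of one vertex per type: the labelling of the complete graph -/
theorem single {V : Type} (G : SimpleGraph V) (K p : ℕ) (t : V → ℕ) (hp : 1 ≤ p) (hK : 1 ≤ K)
    (ht : ∀ v, t v < K) (hne : ∀ u v, G.Adj u v → t u ≠ t v)
    (hw : ∀ u v v', G.Adj u v → G.Adj u v' → t v = t v' → v = v') :
    Circ G p ((K - 1) + 2 * p) := by
  let fE : Sym2 V → ℕ := Sym2.lift ⟨fun u v => (t u + t v + p) % (K - 1 + 2 * p), by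
    intro u v
    simp only
    rw [Nat.add_comm (t u)]⟩
  have hfE : ∀ u v, fE s(u, v) = (t u + t v + p) % (K - 1 + 2 * p) := fun u v => rfl
  refine ⟨t, fE, fun v => by have := ht v; omega, ?_, hne, ?_, ?_⟩
  · intro e _
    induction e using Sym2.ind with
    | _ u v => rw [hfE]; exact Nat.mod_lt _ (by omega)
  · intro u v v' huv huv' hvv' h
    rw [hfE, hfE] at h
    have h1 := ht v
    have h2 := ht v'
    have h3 := eq_of_mod h (by omega) (by omega)
    exact hvv' (hw u v v' huv huv' (by omega))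
  · intro u v huv
    rw [hfE]
    have h1 := ht v
    have h2 := ht u
    have h3 := dist_mod (N := K - 1 + 2 * p) (p := p) (a := t u) (b := t u + t v + p)
      (r := t v + p) (by rw [Nat.add_assoc]) (by omega) (by omega) (by omega) hp
    rwa [Nat.mod_eq_of_lt (show t u < K - 1 + 2 * p by omega)] at h3

end Pool.Agent.R661.HY
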